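import Pool.Agent.Lib.H30E.N4

/-!
# MP_b7f2ce_co: the Fan-Raspaud conjecture for expanders of large girth

Every perfect matching of a cubic two-sided edge expander of large girth extends to a Fan-Raspaud triple.
`G.interedges A B` is the set of the ordered pairs `(a, b)`, `a ∈ A`, `b ∈ B`, with `a`, `b` adjacent.
-/

set_option autoImplicit false

namespace Pool.Agent.Results.MP_b7f2ce_co.Expanders

theorem result (k : ℕ) (hk : 2 ≤ k) (h : ℝ) (h0 : 0 < h) (h1 : h ≤ 1) (g : ℕ)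
    (hg : 2 ^ 28 * k / h ^ 4 * Real.log (k / h) ≤ g)
    (V : Type) [Fintype V] [DecidableEq V] (G : SimpleGraph V) [DecidableRel G.Adj]
    (hG : G.IsRegularOfDegree 3) (hgirth : (g : ℕ∞) ≤ G.egirth)
    (hW : ∀ W : Finset V, 2 * W.card ≤ Fintype.card V → h * W.card ≤ (G.interedges W Wᶜ).card)
    (hA : ∀ A : Finset V, 2 * h * Fintype.card V ≤
      (G.interedges A A).card + (G.interedges Aᶜ Aᶜ).card) :
    (∃ M : G.Subgraph, M.IsPerfectMatching) ∧
      ∀ M : G.Subgraph, M.IsPerfectMatching → ∃ N : Fin k → G.Subgraph,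
        (∀ i, (N i).IsPerfectMatching) ∧
        ∀ i j, i ≠ j → ∀ v w, ¬ (M.Adj v w ∧ (N i).Adj v w ∧ (N j).Adj v w) :=
  Pool.Agent.H30E.final_at k hk h h0 h1 g hg V G hG hgirth ⟨hW, hA⟩

end Pool.Agent.Results.MP_b7f2ce_co.Expanders
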