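import Mathlib
import Pool.Agent.Lib.H1FR.Few

/-!
# The Fan-Raspaud conjecture for graphs with few small odd cuts
-/

namespace Pool.Agent.Results.MP_b7f2ce_co.FewSmallCuts

open Pool.Agent.H1FR Finset
open scoped Classical

theorem result.{u, v} (V : Type u) (E : Type v) [Fintype V] [Fintype E] (G : MGraph V E)
    (hcub : G.Cubic) (hbr : G.Bridgeless)
    (k l : ℕ) (hk : 5 ≤ k) (hkl : k < l) (hl : l ≤ 2 * k - 1)
    (hsum : ∑ D ∈ G.smallCuts k l, ((D.card : ℝ) - 3) / (3 * ((D.card : ℝ) - 1)) < 1)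
    (hn : Fintype.card V < 2 * k * l) :
    ∃ M1 M2 M3, G.IsPM M1 ∧ G.IsPM M2 ∧ G.IsPM M3 ∧ M1 ∩ M2 ∩ M3 = ∅ :=
  MGraph.main_few hcub hbr k l hk hkl hl hsum hn

end Pool.Agent.Results.MP_b7f2ce_co.FewSmallCuts
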