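import Mathlib
import Pool.Agent.Lib.H1FR.Main

/-!
# When two perfect matchings of a cubic graph extend to a Fan-Raspaud triple

`X = M1 ∩ M2` for two perfect matchings of a cubic multigraph.  Either some perfect matching
avoids `X`, or `X` contains an odd edge cut, or there are four pairwise disjoint odd sets of
vertices, the cut of each of which lies in `M1` or in `M2` and has exactly two edges outside `X`.
-/

namespace Pool.Agent.Results.MP_b7f2ce_co.FourSparseCuts

open Pool.Agent.H1FR Finset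
open scoped Classical

theorem result.{u, v} (V : Type u) (E : Type v) [Fintype V] [Fintype E] (G : MGraph V E)
    (hcub : G.Cubic) (M1 M2 : Finset E) (hM1 : G.IsPM M1) (hM2 : G.IsPM M2) :
    (∃ M3, G.IsPM M3 ∧ M1 ∩ M2 ∩ M3 = ∅) ∨
    (∃ C : Finset V, Odd C.card ∧ G.cut C ⊆ M1 ∩ M2) ∨
    ∃ P : Finset (Finset V), 4 ≤ P.card ∧ (∀ C ∈ P, ∀ D ∈ P, C ≠ D → Disjoint C D) ∧
      ∀ C ∈ P, Odd C.card ∧ (G.cut C ⊆ M1 ∨ G.cut C ⊆ M2) ∧
        (G.cut C \ (M1 ∩ M2)).card = 2 := by
  by_cases h : ∃ C : Finset V, Odd C.card ∧ G.cut C ⊆ M1 ∩ M2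
  · exact Or.inr (Or.inl h)
  · push Not at h
    rcases MGraph.criterion hcub hM1 hM2 h with h1 | h1
    · exact Or.inl h1
    · exact Or.inr (Or.inr h1)

end Pool.Agent.Results.MP_b7f2ce_co.FourSparseCuts
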