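import Mathlib
import Pool.Agent.Lib.H1FR.Main

/-!
# Fan-Raspaud triples through one perfect matching without small odd cuts
-/

namespace Pool.Agent.Results.MP_b7f2ce_co.WellCutMatching

open Pool.Agent.H1FR Finset
open scoped Classical

theorem result.{u, v} (V : Type u) (E : Type v) [Fintype V] [Fintype E] (G : MGraph V E)
    (hcub : G.Cubic) (hbr : G.Bridgeless) (M1 : Finset E) (hM1 : G.IsPM M1)
    (k l : ℕ) (hk : 5 ≤ k) (hkl : k < l) (hl : l ≤ 2 * k - 1)
    (hcut : ∀ C : Finset V, Odd C.card → G.cut C ⊆ M1 →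
      (G.cut C).card = k ∨ l ≤ (G.cut C).card)
    (hn : Fintype.card V < 2 * k * l) :
    ∃ M2 M3, G.IsPM M2 ∧ G.IsPM M3 ∧ M1 ∩ M2 ∩ M3 = ∅ :=
  MGraph.main hcub hbr hM1 k l hk hkl hl hcut hn

end Pool.Agent.Results.MP_b7f2ce_co.WellCutMatching
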